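import Pool.Agent.H342_Gap.Attain

set_option autoImplicit false

/-!
# When is the growth `exp(n^α)` attained at a gap exponent `α`?

Let `α` be a gap exponent (in the form: every finitely generated group with growth `≺ exp(n^α)` is
virtually nilpotent; by the theorems of Gromov and Wolf this is the same as polynomial growth).  We
prove that the following are equivalent:

1. some finitely generated group which is not virtually nilpotent has growth `∼ exp(n^α)`;
2. some 2-generated group, all of whose proper quotients are virtually nilpotent but which is not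
   virtually nilpotent itself, has growth `∼ exp(n^α)`;
3. there is one constant `C` such that for every `β > α` some 2-generated group which is not
   virtually nilpotent has growth function at most `exp((C n)^β)`;
4. there is one constant `C` such that for every radius `R` some 2-generated group which is not
   virtually nilpotent has at most `exp((C n)^α)` elements in the ball of radius `n` for `n ≤ R`;
5. the gap does not widen: there is no monotone `g ≻ exp(n^α)` such that every finitely generated
   group with growth `⪯ g` is virtually nilpotent.

So at the largest gap exponent the growth `exp(n^α)` is attained, unless the gap is larger than the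
one described by exponents.
-/

namespace Pool.Agent.Results.MP_2e1d3c_al.Attainment

open Pool.Agent.H342_Gap

theorem result (α : ℝ) (hα : GapN α) : List.TFAE [
    ∃ (G : Type) (_ : Group G) (S : Set G), S.Finite ∧ Subgroup.closure S = ⊤ ∧
      ¬ Group.IsVirtuallyNilpotent G ∧ Eqv (gro S) (expF α),
    ∃ (G : Type) (_ : Group G) (x y : G), Subgroup.closure {x, y} = ⊤ ∧
      ¬ Group.IsVirtuallyNilpotent G ∧
      (∀ (N : Subgroup G) [N.Normal], N ≠ ⊥ → Group.IsVirtuallyNilpotent (G ⧸ N)) ∧
      Eqv (gro {x, y}) (expF α),
    ∃ C : ℕ, 1 ≤ C ∧ ∀ β : ℝ, α < β → ∃ (G : Type) (_ : Group G) (x y : G),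
      Subgroup.closure {x, y} = ⊤ ∧ ¬ Group.IsVirtuallyNilpotent G ∧
      ∀ n : ℕ, gro {x, y} n ≤ expF β (C * n),
    ∃ C : ℕ, 1 ≤ C ∧ ∀ R : ℕ, ∃ (G : Type) (_ : Group G) (x y : G),
      Subgroup.closure {x, y} = ⊤ ∧ ¬ Group.IsVirtuallyNilpotent G ∧
      ∀ n : ℕ, n ≤ R → gro {x, y} n ≤ expF α (C * n),
    ¬ ∃ g : ℕ → ℕ, Monotone g ∧ SLess (expF α) g ∧ GapFun g] :=
  attain_tfae hα

end Pool.Agent.Results.MP_2e1d3c_al.Attainment
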