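import Pool.Agent.H342_Gap.Assembly
import Pool.Agent.H342_Full.Final
import Pool.Agent.H342_Full.Poly

set_option autoImplicit false

/-!
# The largest gap exponent relative to the groups `G_ω` exists and is attained

`Gom ω` is the Grigorchuk group `G_ω`, `ω` an arbitrary sequence of letters `0, 1, 2`.  Every `G_ω` has
polynomial growth (for eventually constant `ω`) or growth at least `exp(n^α)`,
where `α = log 2 / log λ ≈ 0.7674`, `λ` the positive root of `x³ = x² + 2x + 4`; the same lower bound
holds for every finitely generated group which has a section (quotient of a subgroup) `G_ω` not of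
polynomial growth; the first Grigorchuk group has growth exactly `exp(n^α)`; so `α` is the largest gap
exponent relative to this class, and it is attained.
-/

namespace Pool.Agent.Results.MP_2e1d3c_al.GrigorchukAll

open Pool.Agent.H342_Gap Pool.Agent.H342_Full Pool.Agent.H776R2.Grig Pool.Agent.H776R2.Om

/-- the growth of `G_ω` is not polynomial -/
def NotPoly (ω : ℕ → Fin 3) : Prop := ¬ PolyG (gro (SO ω))

theorem dom_of_notPoly {ω : ℕ → Fin 3} (h : NotPoly ω) : Dom (expF alpha) (gro (SO ω)) := by
  apply lower_NEC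
  intro n
  by_contra hc
  push Not at hc
  exact h (poly_of_const n hc)

theorem not_poly_of_dom {f : ℕ → ℕ} (h : Dom (expF alpha) f) : ¬ PolyG f := by
  rintro ⟨C, d, hp⟩
  obtain ⟨D, hD, h2⟩ := h
  obtain ⟨n, hn1, hn⟩ := expF_not_poly H_alpha_pos (C * D) d
  have h3 := h2 n
  have h4 := hp (D * n) (Nat.mul_pos hD hn1)
  rw [← mul_assoc] at h4
  omega

theorem result :
    (∀ ω : ℕ → Fin 3, PolyG (gro (SO ω)) ∨ Dom (expF alpha) (gro (SO ω))) ∧
    (∀ (G : Type) [Group G] (S : Set G), S.Finite → Subgroup.closure S = ⊤ →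
      SecOf NotPoly G → Dom (expF alpha) (gro S)) ∧
    (∃ (G : Type) (_ : Group G) (S : Set G), S.Finite ∧ Subgroup.closure S = ⊤ ∧
      SecOf NotPoly G ∧ Eqv (gro S) (expF alpha)) ∧
    IsGreatest {β : ℝ | GapExpIn (fun G _ => SecOf NotPoly G) β} alpha := by
  refine ⟨?_, ?_⟩
  · intro ω
    by_cases h : PolyG (gro (SO ω))
    · exact Or.inl h
    · exact Or.inr (dom_of_notPoly h)
  · exact assembly NotPoly (not_poly_of_dom gro_om0.2) fun ω h => dom_of_notPoly h

end Pool.Agent.Results.MP_2e1d3c_al.GrigorchukAll
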