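import Pool.Agent.H342_Semi.Num
import Pool.Agent.H342_Gap.Assembly

set_option autoImplicit false

/-!
# Gap exponents for cancellative semigroups

Let `S` be a finitely generated cancellative semigroup with growth at most `exp(n^β)`, `0 < β < 1`.  Then
`S` embeds in a group `G` of left quotients, and the growth of `G` is at most `exp(n^(β/(1-β)))`.  Hence,
if `α` is a gap exponent (for groups), then every finitely generated cancellative semigroup with growth at
most `exp(n^β)`, `β < α/(1+α)`, has polynomial growth.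
-/

namespace Pool.Agent.Results.MP_2e1d3c_al.SemigroupGap

open Pool.Agent.H342_Gap Pool.Agent.H342_Semi

/-- `α` is a gap exponent: `0 < α < 1` and every finitely generated group with growth strictly less than
`exp(n^α)` has polynomial growth -/
def GapExp (α : ℝ) : Prop :=
  0 < α ∧ α < 1 ∧ ∀ (G : Type) [Group G] (X : Set G), X.Finite → Subgroup.closure X = ⊤ →
    SLess (gro X) (expF α) → PolyG (gro X)

theorem result (S : Type) [Semigroup S] [IsCancelMul S] [Nonempty S] (A : Set S) (hA : A.Finite)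
    (hgen : Subsemigroup.closure A = ⊤) (β : ℝ) (h0 : 0 < β) (h1 : β < 1)
    (h : Dom (sgro A) (expF β)) :
    (∃ (G : Type) (_ : Group G) (f : S → G), Function.Injective f ∧ (∀ x y, f (x * y) = f x * f y) ∧
      (∀ g : G, ∃ s t : S, g = (f s)⁻¹ * f t) ∧ Dom (gro (f '' A)) (expF (β / (1 - β)))) ∧
    ∀ α : ℝ, GapExp α → β < α / (1 + α) → PolyG (sgro A) := by
  obtain ⟨G, hG, f, hf, hmul, hq⟩ :=
    ore_embed (common_left_multiple hA hgen (subExp_of_dom h0 h1 h))
  have hd := dom_group hA (fun n hn => one_le_sgro hA hgen hn) h0 h1 h hf hmul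
  refine ⟨⟨G, hG, f, hf, hmul, hq, hd⟩, ?_⟩
  rintro α ⟨hα0, hα1, hα⟩ hβ
  have hγ0 : 0 < β / (1 - β) := div_pos h0 (by linarith)
  have hγ : β / (1 - β) < α := by
    rw [lt_div_iff₀ (by linarith)] at hβ
    rw [div_lt_iff₀ (by linarith)]
    linarith
  have hs : SLess (gro (f '' A)) (expF α) := by
    refine ⟨hd.trans (Dom.of_le (expF_le_expF hγ0 hγ.le)), fun he => ?_⟩
    exact not_Dom_expF hγ0 hγ (he.2.trans hd)
  obtain ⟨C, d, hp⟩ := hα G (f '' A) (hA.image f) (gen_image hgen hmul hq) hs
  exact ⟨C, d, fun n hn => (sgro_le_gro hA hf hmul n).trans (hp n hn)⟩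

end Pool.Agent.Results.MP_2e1d3c_al.SemigroupGap
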